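import Mathlib

set_option autoImplicit false

/-!
# A splitting of Frobenius on Witt vectors of length two, from lifts to characteristic zero
-/

namespace Pool.Agent.R407.QF

open MvPolynomial WittVector

variable {p : ℕ} {Λ : Type*} [CommRing Λ] {n : ℕ}

/-- the lift of Frobenius: `φ` on the coefficients, `x i ↦ x i ^ p` -/
noncomputable def Ph (p : ℕ) (φ : Λ ≃+* Λ) : MvPolynomial (Fin n) Λ →+* MvPolynomial (Fin n) Λ :=
  eval₂Hom (C.comp (φ : Λ →+* Λ)) (fun i => X i ^ p)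

lemma Ph_monomial (φ : Λ ≃+* Λ) (t : Fin n →₀ ℕ) (c : Λ) :
    Ph p φ (monomial t c) = monomial (p • t) (φ c) := by
  unfold Ph
  rw [coe_eval₂Hom, eval₂_monomial, monomial_eq (s := p • t)]
  simp only [RingHom.coe_comp, Function.comp_apply, RingHom.coe_coe]
  congr 1
  rw [Finsupp.prod_fintype _ _ (fun i => pow_zero _), Finsupp.prod_fintype _ _ (fun i => pow_zero _)]
  apply Finset.prod_congr rfl
  intro i _
  rw [← pow_mul]
  simp

/-- the coefficient extraction, inverse to the lift of Frobenius -/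
noncomputable def U (p : ℕ) (φ : Λ ≃+* Λ) : MvPolynomial (Fin n) Λ →+ MvPolynomial (Fin n) Λ :=
  (Finsupp.liftAddHom (fun s : Fin n →₀ ℕ => if ∀ i, s i % p = p - 1 then
    ((monomial (s.mapRange (fun m => m / p) (Nat.zero_div p)) : Λ →ₗ[Λ] _).toAddMonoidHom).comp
      ((φ.symm : Λ →+* Λ) : Λ →+ Λ) else 0)).comp
    (AddMonoidAlgebra.coeffAddEquiv : MvPolynomial (Fin n) Λ ≃+ _).toAddMonoidHom

lemma U_monomial (φ : Λ ≃+* Λ) (s : Fin n →₀ ℕ) (c : Λ) :
    U p φ (monomial s c) = if ∀ i, s i % p = p - 1 then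
      monomial (s.mapRange (fun m => m / p) (Nat.zero_div p)) (φ.symm c) else 0 := by
  have h : (AddMonoidAlgebra.coeffAddEquiv : MvPolynomial (Fin n) Λ ≃+ _) (monomial s c) =
      Finsupp.single s c := rfl
  unfold U
  rw [AddMonoidHom.comp_apply]
  erw [h, Finsupp.liftAddHom_apply_single]
  split_ifs <;> rfl

lemma U_Ph_mul (hp : 0 < p) (φ : Λ ≃+* Λ) (α g : MvPolynomial (Fin n) Λ) :
    U p φ (Ph p φ α * g) = α * U p φ g := by
  induction α using MvPolynomial.induction_on' with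
  | add a b ha hb => rw [map_add, add_mul, map_add, ha, hb, add_mul]
  | monomial t c =>
    induction g using MvPolynomial.induction_on' with
    | add a b ha hb => rw [mul_add, map_add, ha, hb, map_add, mul_add]
    | monomial s b =>
      rw [Ph_monomial, monomial_mul, U_monomial, U_monomial]
      have h1 : ∀ i, (p • t + s) i % p = s i % p := by
        intro i
        simp
      simp only [h1]
      split_ifs with h
      · rw [monomial_mul, map_mul, RingEquiv.symm_apply_apply]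
        congr 2
        ext i
        simp only [Finsupp.mapRange_apply, Finsupp.add_apply, Finsupp.smul_apply, smul_eq_mul]
        rw [Nat.mul_add_div hp]
      · rw [mul_zero]

lemma U_natCast_mul (φ : Λ ≃+* Λ) (m : ℕ) (x : MvPolynomial (Fin n) Λ) :
    U p φ ((m : MvPolynomial (Fin n) Λ) * x) = m * U p φ x := by
  rw [← nsmul_eq_mul, map_nsmul, nsmul_eq_mul]

lemma dvd_Ph_sub_pow (hp : p.Prime) (φ : Λ ≃+* Λ) (hφ : ∀ c : Λ, (p : Λ) ∣ φ c - c ^ p)
    (g : MvPolynomial (Fin n) Λ) :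
    ∃ e, g ^ p = Ph p φ g + (p : MvPolynomial (Fin n) Λ) * e := by
  induction g using MvPolynomial.induction_on with
  | C c =>
    obtain ⟨e, he⟩ := hφ c
    refine ⟨- C e, ?_⟩
    have h1 : Ph p φ (C c : MvPolynomial (Fin n) Λ) = C (φ c) := by
      simp [Ph]
    rw [h1, ← C_pow]
    have h2 : c ^ p = φ c - p * e := by linear_combination -he
    rw [h2, map_sub, map_mul, map_natCast]
    ring
  | add a b ha hb =>
    obtain ⟨e1, h1⟩ := ha
    obtain ⟨e2, h2⟩ := hb
    obtain ⟨r, hr⟩ := exists_add_pow_prime_eq hp a b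
    exact ⟨e1 + e2 + a * b * r, by rw [hr, h1, h2, map_add]; ring⟩
  | mul_X a i ha =>
    obtain ⟨e, he⟩ := ha
    refine ⟨e * X i ^ p, ?_⟩
    have h1 : Ph p φ (X i : MvPolynomial (Fin n) Λ) = X i ^ p := by simp [Ph]
    rw [mul_pow, he, map_mul, h1]
    ring


/-- `a ≡ b` modulo `p` gives `a ^ p ≡ b ^ p` modulo `p ^ 2` -/
lemma pow_add_mul (hp : p.Prime) {R : Type*} [CommRing R] (a b : R) :
    ∃ e, (a + (p : R) * b) ^ p = a ^ p + (p : R) ^ 2 * e := by
  have h := dvd_sub_pow_of_dvd_sub (R := R) (p := p) (a := a + (p : R) * b) (b := a)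
    ⟨b, by ring⟩ 1
  obtain ⟨e, he⟩ := h
  refine ⟨e, ?_⟩
  rw [pow_one] at he
  linear_combination he

section Main

variable (φ : Λ ≃+* Λ) (f H : MvPolynomial (Fin n) Λ)

/-- the functional of the splitting -/
noncomputable def E (p : ℕ) (φ : Λ ≃+* Λ) (f H : MvPolynomial (Fin n) Λ) :
    MvPolynomial (Fin n) Λ →+ MvPolynomial (Fin n) Λ :=
  ((U p φ).comp (U p φ)).comp (AddMonoidHom.mulLeft (f ^ (p ^ 2 - 1) * H))

lemma E_apply (g : MvPolynomial (Fin n) Λ) :
    E p φ f H g = U p φ (U p φ (f ^ (p ^ 2 - 1) * H * g)) := rfl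

lemma E_natCast_mul (m : ℕ) (x : MvPolynomial (Fin n) Λ) :
    E p φ f H ((m : MvPolynomial (Fin n) Λ) * x) = m * E p φ f H x := by
  rw [← nsmul_eq_mul, map_nsmul, nsmul_eq_mul]

variable {φ f H}

lemma UU_zero (hp : 0 < p) (hU : U p φ (f ^ (p - 1) * H) = 0) (α : MvPolynomial (Fin n) Λ) :
    U p φ (U p φ (Ph p φ α * (f ^ (p - 1) * H))) = 0 := by
  rw [U_Ph_mul hp, hU, mul_zero, map_zero]

lemma pow_eq1 (hp : p.Prime) (f : MvPolynomial (Fin n) Λ) :
    f ^ (p ^ 2 - 1) = (f ^ (p - 1)) ^ p * f ^ (p - 1) := by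
  rw [← pow_mul, ← pow_add]
  congr 1
  obtain ⟨k, rfl⟩ : ∃ k, p = k + 1 := ⟨p - 1, by have := hp.pos; omega⟩
  have : (k + 1) ^ 2 = (k + 1) * (k + 1) := by ring
  rw [this, Nat.add_sub_cancel]
  have : (k + 1) * (k + 1) = k * (k + 1) + k + 1 := by ring
  omega

lemma E_dvd (hp : p.Prime) (hφ : ∀ c : Λ, (p : Λ) ∣ φ c - c ^ p)
    (hU : U p φ (f ^ (p - 1) * H) = 0) (β β' : MvPolynomial (Fin n) Λ) :
    ∃ y, E p φ f H (Ph p φ β + (p : MvPolynomial (Fin n) Λ) * β') =
      (p : MvPolynomial (Fin n) Λ) * y := by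
  obtain ⟨e, he⟩ := dvd_Ph_sub_pow hp φ hφ (f ^ (p - 1))
  rw [E_apply, pow_eq1 hp, he]
  have h1 : (Ph p φ (f ^ (p - 1)) + (p : MvPolynomial (Fin n) Λ) * e) * f ^ (p - 1) * H *
      (Ph p φ β + (p : MvPolynomial (Fin n) Λ) * β') =
      Ph p φ (f ^ (p - 1) * β) * (f ^ (p - 1) * H) + (p : MvPolynomial (Fin n) Λ) *
      (e * f ^ (p - 1) * H * (Ph p φ β + (p : MvPolynomial (Fin n) Λ) * β') +
        Ph p φ (f ^ (p - 1)) * f ^ (p - 1) * H * β') := by
    rw [map_mul]
    ring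
  rw [h1, map_add, map_add, UU_zero hp.pos hU, zero_add, U_natCast_mul, U_natCast_mul]
  exact ⟨_, rfl⟩

lemma E_Ph_Ph (hp : 0 < p) (α g : MvPolynomial (Fin n) Λ) :
    E p φ f H (Ph p φ (Ph p φ α) * g) = α * E p φ f H g := by
  rw [E_apply, E_apply, ← U_Ph_mul hp, ← U_Ph_mul hp]
  congr 2
  ring

lemma E_vanish (hp : p.Prime) (hφ : ∀ c : Λ, (p : Λ) ∣ φ c - c ^ p)
    (hU : U p φ (f ^ (p - 1) * H) = 0) (a b c : MvPolynomial (Fin n) Λ) :
    ∃ y z, E p φ f H (f ^ p * a ^ p + (p : MvPolynomial (Fin n) Λ) * (f * c) +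
      (p : MvPolynomial (Fin n) Λ) ^ 2 * b) =
      (p : MvPolynomial (Fin n) Λ) * (f * y + (p : MvPolynomial (Fin n) Λ) * z) := by
  set P : MvPolynomial (Fin n) Λ := (p : MvPolynomial (Fin n) Λ) with hP
  obtain ⟨e1, he1⟩ := dvd_Ph_sub_pow hp φ hφ f
  obtain ⟨a1, ha1⟩ := dvd_Ph_sub_pow hp φ hφ a
  obtain ⟨e2, he2⟩ := pow_add_mul hp (Ph p φ f) e1
  have h3 : f ^ (p ^ 2) = Ph p φ (Ph p φ f) + P * Ph p φ e1 + P ^ 2 * e2 := by
    rw [pow_two, pow_mul, he1, he2, ← map_pow, he1, map_add, map_mul, map_natCast]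
  have hexp : f ^ (p ^ 2 - 1) * f = f ^ (p ^ 2) := by
    rw [← pow_succ]
    congr 1
    have := hp.pos
    have : 0 < p ^ 2 := by positivity
    omega
  have hexp2 : f ^ (p ^ 2 - 1) * f ^ p = f ^ (p ^ 2) * f ^ (p - 1) := by
    rw [← hexp, mul_assoc]
    congr 1
    rw [← pow_succ']
    congr 1
    have := hp.pos
    omega
  have h1 : f ^ (p ^ 2 - 1) * H * (f ^ p * a ^ p + P * (f * c) + P ^ 2 * b) =
      (Ph p φ (Ph p φ f) * (Ph p φ a * (f ^ (p - 1) * H)) +
        P * (Ph p φ (Ph p φ f) * (f ^ (p - 1) * H * a1))) +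
      (P * (Ph p φ (e1 * a) * (f ^ (p - 1) * H)) +
        (P * P) * (Ph p φ e1 * (f ^ (p - 1) * H) * a1 + e2 * f ^ (p - 1) * H * a ^ p)) +
      (P * (Ph p φ (Ph p φ f) * (H * c)) + (P * P) * (Ph p φ e1 * (H * c) + P * e2 * H * c)) +
      (P * P) * (f ^ (p ^ 2 - 1) * H * b) := by
    have e1' : f ^ (p ^ 2 - 1) * H * (f ^ p * a ^ p + P * (f * c) + P ^ 2 * b) =
      (f ^ (p ^ 2 - 1) * f ^ p) * H * a ^ p + P * ((f ^ (p ^ 2 - 1) * f) * H * c) +
      (P * P) * (f ^ (p ^ 2 - 1) * H * b) := by ring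
    rw [e1', hexp2, hexp, h3, map_mul (Ph p φ) e1 a]
    have e2' : (Ph p φ (Ph p φ f) + P * Ph p φ e1 + P ^ 2 * e2) * f ^ (p - 1) * H * a ^ p =
      Ph p φ (Ph p φ f) * f ^ (p - 1) * H * a ^ p + P * Ph p φ e1 * f ^ (p - 1) * H * a ^ p +
        P ^ 2 * e2 * f ^ (p - 1) * H * a ^ p := by ring
    rw [e2']
    have e3' : Ph p φ (Ph p φ f) * f ^ (p - 1) * H * a ^ p =
        Ph p φ (Ph p φ f) * f ^ (p - 1) * H * (Ph p φ a + P * a1) := by rw [ha1]
    have e4' : P * Ph p φ e1 * f ^ (p - 1) * H * a ^ p =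
        P * Ph p φ e1 * f ^ (p - 1) * H * (Ph p φ a + P * a1) := by rw [ha1]
    rw [e3', e4']
    ring
  rw [E_apply, h1]
  have hPn : ∀ x : MvPolynomial (Fin n) Λ, U p φ (P * x) = P * U p φ x := fun x =>
    U_natCast_mul φ p x
  simp only [map_add, mul_assoc P P, hPn, U_Ph_mul hp.pos]
  rw [hU]
  simp only [mul_zero, map_zero, zero_add]
  exact ⟨U p φ (U p φ (f ^ (p - 1) * H * a1)) + U p φ (U p φ (H * c)),
    U p φ (U p φ (Ph p φ e1 * (f ^ (p - 1) * H) * a1)) +
      U p φ (U p φ (e2 * f ^ (p - 1) * H * a ^ p)) +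
      (U p φ (e1 * U p φ (H * c)) + U p φ (U p φ (P * e2 * H * c))) +
      U p φ (U p φ (f ^ (p ^ 2 - 1) * H * b)), by ring⟩

end Main

lemma ghost_one [hp : Fact p.Prime] {R : Type*} [CommRing R] (x : WittVector p R) :
    WittVector.ghostComponent 1 x = x.coeff 0 ^ p + (p : R) * x.coeff 1 := by
  rw [WittVector.ghostComponent_apply, wittPolynomial_one]
  simp
  ring

/-- a splitting of Frobenius of length two for the quotient by `p` and `f` -/
theorem exists_sigma [hp : Fact p.Prime] (φ : Λ ≃+* Λ) (hφ : ∀ c : Λ, (p : Λ) ∣ φ c - c ^ p)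
    (f H : MvPolynomial (Fin n) Λ) (hU : U p φ (f ^ (p - 1) * H) = 0)
    (htor : ∀ x : MvPolynomial (Fin n) Λ, (p : MvPolynomial (Fin n) Λ) * x = 0 → x = 0)
    (t : MvPolynomial (Fin n) Λ)
    (ht : U p φ (U p φ (f ^ (p ^ 2 - 1) * H)) = (p : MvPolynomial (Fin n) Λ) * t)
    {S : Type*} [CommRing S] [CharP S p] (q : MvPolynomial (Fin n) Λ →+* S)
    (hq : Function.Surjective q) (hqf : q f = 0)
    (hker : ∀ x, q x = 0 → ∃ a b, x = f * a + (p : MvPolynomial (Fin n) Λ) * b) :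
    ∃ σ : TruncatedWittVector p 2 S →+ S,
      (∀ w x : WittVector p S, σ (WittVector.truncate 2 (WittVector.frobenius w * x)) =
        w.coeff 0 * σ (WittVector.truncate 2 x)) ∧ σ 1 = q t := by
  have hqp : q (p : MvPolynomial (Fin n) Λ) = 0 := by
    rw [map_natCast, CharP.cast_eq_zero]
  have hghost : ∀ X : WittVector p (MvPolynomial (Fin n) Λ), ∃ b,
      WittVector.ghostComponent 1 X = Ph p φ (X.coeff 0) + (p : MvPolynomial (Fin n) Λ) * b := by
    intro X
    obtain ⟨e, he⟩ := dvd_Ph_sub_pow hp.out φ hφ (X.coeff 0)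
    rw [ghost_one, he]
    exact ⟨e + X.coeff 1, by ring⟩
  have hdiv : ∀ X : WittVector p (MvPolynomial (Fin n) Λ), ∃ y,
      E p φ f H (WittVector.ghostComponent 1 X) = (p : MvPolynomial (Fin n) Λ) * y := by
    intro X
    obtain ⟨b, hb⟩ := hghost X
    rw [hb]
    exact E_dvd hp.out hφ hU _ _
  choose Θ hΘ using hdiv
  have hcan : ∀ x y : MvPolynomial (Fin n) Λ, (p : MvPolynomial (Fin n) Λ) * x =
      (p : MvPolynomial (Fin n) Λ) * y → x = y := by
    intro x y h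
    rw [← sub_eq_zero]
    apply htor
    rw [mul_sub, h, sub_self]
  have hadd : ∀ X Y, Θ (X + Y) = Θ X + Θ Y := by
    intro X Y
    apply hcan
    rw [← hΘ, map_add, map_add, hΘ, hΘ]
    ring
  let θ : WittVector p (MvPolynomial (Fin n) Λ) →+ S :=
    AddMonoidHom.mk' (fun X => q (Θ X)) (fun X Y => by rw [hadd, map_add])
  let π : WittVector p (MvPolynomial (Fin n) Λ) →+* TruncatedWittVector p 2 S :=
    (WittVector.truncate 2).comp (WittVector.map q)
  have hπ : Function.Surjective π :=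
    (WittVector.truncate_surjective p 2 S).comp (WittVector.map_surjective q hq)
  have hker' : (π : _ →+ TruncatedWittVector p 2 S).ker ≤ θ.ker := by
    intro X hX
    rw [AddMonoidHom.mem_ker] at hX ⊢
    have hX' : WittVector.truncate 2 (WittVector.map q X) = 0 := hX
    have h0 := (WittVector.mem_ker_truncate 2 (WittVector.map q X)).mp hX'
    have h00 : q (X.coeff 0) = 0 := by
      have := h0 0 (by norm_num)
      rwa [WittVector.map_coeff] at this
    have h01 : q (X.coeff 1) = 0 := by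
      have := h0 1 (by norm_num)
      rwa [WittVector.map_coeff] at this
    obtain ⟨a, b, hab⟩ := hker _ h00
    obtain ⟨c, e, hce⟩ := hker _ h01
    obtain ⟨r, hr⟩ := pow_add_mul hp.out (f * a) b
    have hg : WittVector.ghostComponent 1 X = f ^ p * a ^ p +
        (p : MvPolynomial (Fin n) Λ) * (f * c) + (p : MvPolynomial (Fin n) Λ) ^ 2 * (r + e) := by
      rw [ghost_one, hab, hce, hr]
      ring
    obtain ⟨y, z, hyz⟩ := E_vanish hp.out hφ hU a (r + e) c
    have h1 : Θ X = f * y + (p : MvPolynomial (Fin n) Λ) * z := by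
      apply hcan
      rw [← hΘ, hg, hyz]
    change q (Θ X) = 0
    rw [h1, map_add, map_mul, map_mul, hqf, hqp]
    ring
  let σ : TruncatedWittVector p 2 S →+ S :=
    (AddMonoidHom.liftOfSurjective (π : _ →+ TruncatedWittVector p 2 S) hπ) ⟨θ, hker'⟩
  have hσ : ∀ X, σ (WittVector.truncate 2 (WittVector.map q X)) = q (Θ X) := by
    intro X
    exact AddMonoidHom.liftOfRightInverse_comp_apply (π : _ →+ TruncatedWittVector p 2 S) _ _
      ⟨θ, hker'⟩ X
  refine ⟨σ, ?_, ?_⟩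
  · intro w x
    obtain ⟨W, rfl⟩ := WittVector.map_surjective q hq w
    obtain ⟨X, rfl⟩ := WittVector.map_surjective q hq x
    set Z : WittVector p (MvPolynomial (Fin n) Λ) :=
      WittVector.mk p (fun i => W.coeff i ^ p) with hZ
    have hZ1 : WittVector.map q Z = WittVector.frobenius (WittVector.map q W) := by
      ext i
      rw [WittVector.coeff_frobenius_charP, WittVector.map_coeff, WittVector.map_coeff, hZ,
        WittVector.coeff_mk, map_pow]
    rw [← hZ1, ← map_mul, hσ, hσ, WittVector.map_coeff, ← map_mul]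
    obtain ⟨b, hb⟩ := hghost X
    obtain ⟨e0, he0⟩ := dvd_Ph_sub_pow hp.out φ hφ (W.coeff 0)
    obtain ⟨e1, he1⟩ := dvd_Ph_sub_pow hp.out φ hφ (W.coeff 1)
    obtain ⟨r, hr⟩ := pow_add_mul hp.out (Ph p φ (W.coeff 0)) e0
    have hgZ : WittVector.ghostComponent 1 Z = Ph p φ (Ph p φ (W.coeff 0)) +
        (p : MvPolynomial (Fin n) Λ) * Ph p φ (e0 + W.coeff 1) +
        ((p : MvPolynomial (Fin n) Λ) * (p : MvPolynomial (Fin n) Λ)) * (r + e1) := by
      rw [ghost_one, hZ, WittVector.coeff_mk, he1, he0, hr, ← map_pow, he0,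
        map_add, map_mul, map_natCast, map_add]
      ring
    obtain ⟨y, hy⟩ := E_dvd (f := f) (H := H) hp.out hφ hU ((e0 + W.coeff 1) * X.coeff 0)
      (Ph p φ (e0 + W.coeff 1) * b)
    have h1 : Θ (Z * X) = W.coeff 0 * Θ X + (p : MvPolynomial (Fin n) Λ) * (y +
        E p φ f H ((r + e1) * WittVector.ghostComponent 1 X)) := by
      apply hcan
      have h2 : WittVector.ghostComponent 1 (Z * X) =
          Ph p φ (Ph p φ (W.coeff 0)) * WittVector.ghostComponent 1 X +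
          (p : MvPolynomial (Fin n) Λ) * (Ph p φ ((e0 + W.coeff 1) * X.coeff 0) +
            (p : MvPolynomial (Fin n) Λ) * (Ph p φ (e0 + W.coeff 1) * b)) +
          (p : MvPolynomial (Fin n) Λ) * ((p : MvPolynomial (Fin n) Λ) *
            ((r + e1) * WittVector.ghostComponent 1 X)) := by
        rw [map_mul, hgZ, map_mul (Ph p φ) (e0 + W.coeff 1)]
        have h3 : Ph p φ (X.coeff 0) = WittVector.ghostComponent 1 X -
          (p : MvPolynomial (Fin n) Λ) * b := by rw [hb]; ring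
        rw [h3]
        ring
      rw [← hΘ, h2, map_add, map_add, E_Ph_Ph hp.out.pos, E_natCast_mul, E_natCast_mul,
        E_natCast_mul, hy, hΘ]
      ring
    rw [h1, map_add, map_mul q (p : MvPolynomial (Fin n) Λ), hqp, zero_mul, add_zero]
  · have h1 : σ 1 = σ (WittVector.truncate 2 (WittVector.map q 1)) := by
      rw [map_one (WittVector.map q), map_one (WittVector.truncate 2)]
    rw [h1, hσ]
    congr 1
    apply hcan
    rw [← hΘ, map_one, E_apply, mul_one, ht]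

end Pool.Agent.R407.QF
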