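import Mathlib
import Pool.Agent.R407.QF.Core

set_option autoImplicit false

/-!
# The coefficients for Fermat hypersurfaces
-/

namespace Pool.Agent.R407.QF

open MvPolynomial

/-- numbers at most `B` with prescribed sum -/
lemma exists_beta (n B s : ℕ) (h : s ≤ n * B) :
    ∃ β : Fin n → ℕ, (∀ i, β i ≤ B) ∧ ∑ i, β i = s := by
  induction n generalizing s with
  | zero => exact ⟨Fin.elim0, fun i => i.elim0, by simp; omega⟩
  | succ n ih =>
    obtain ⟨β, h1, h2⟩ := ih (s - min s B) (by
      rw [Nat.add_mul, Nat.one_mul] at h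
      rcases le_total s B with h3 | h3
      · rw [min_eq_left h3]; simp
      · rw [min_eq_right h3]; omega)
    refine ⟨Fin.cons (min s B) β, ?_, ?_⟩
    · intro i
      refine Fin.cases ?_ (fun j => ?_) i
      · simp
      · simpa using h1 j
    · rw [Fin.sum_univ_succ]
      simp only [Fin.cons_zero, Fin.cons_succ]
      rw [h2]
      omega

variable {Λ : Type*} [CommRing Λ] {n : ℕ}

/-- the exponents of the terms of the product -/
noncomputable def ex (d : ℕ) (M k : Fin n → ℕ) : Fin n →₀ ℕ :=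
  Finsupp.equivFunOnFinite.symm (fun i => d * k i + M i)

lemma ex_apply (d : ℕ) (M k : Fin n → ℕ) (i : Fin n) : ex d M k i = d * k i + M i := rfl

lemma expand_pow (d N : ℕ) (M : Fin n → ℕ) :
    ((∑ i, (X i : MvPolynomial (Fin n) Λ) ^ d) ^ N * ∏ i, X i ^ M i : MvPolynomial (Fin n) Λ) =
      ∑ k ∈ Finset.piAntidiag Finset.univ N,
        monomial (ex d M k) ((Nat.multinomial Finset.univ k : ℕ) : Λ) := by
  rw [Finset.sum_pow_eq_sum_piAntidiag, Finset.sum_mul]
  apply Finset.sum_congr rfl
  intro k _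
  rw [monomial_eq, Finsupp.prod_fintype _ _ (fun i => pow_zero _), mul_assoc,
    ← Finset.prod_mul_distrib, map_natCast]
  congr 1
  apply Finset.prod_congr rfl
  intro i _
  rw [ex_apply, pow_add, pow_mul]

lemma key_mod {p d a : ℕ} (hp : p.Prime) (hd0 : 0 < d) (hdp : d < p) {β M k : ℕ}
    (hM : M + d * β + 1 = p * (p - a * d)) (h : (d * k + M) % p = p - 1) (hβ : β < p) :
    β ≤ k := by
  by_contra hlt
  push Not at hlt
  have h1 : p ∣ d * k + M + 1 := by
    have := hp.pos
    have h2 := Nat.div_add_mod (d * k + M) p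
    rw [h] at h2
    refine ⟨(d * k + M) / p + 1, ?_⟩
    rw [mul_add, mul_one]
    omega
  have h2 : p ∣ d * (β - k) := by
    have h3 : (p : ℤ) ∣ ((d * (β - k) : ℕ) : ℤ) := by
      have h4 : ((d * (β - k) : ℕ) : ℤ) = (p * (p - a * d) : ℕ) - ((d * k + M + 1 : ℕ) : ℤ) := by
        rw [← hM]
        push_cast [Nat.cast_sub hlt.le]
        ring
      rw [h4]
      exact dvd_sub (by exact_mod_cast Dvd.intro _ rfl) (by exact_mod_cast h1)
    exact_mod_cast h3
  rcases hp.dvd_mul.mp h2 with h3 | h3
  · exact absurd (Nat.le_of_dvd hd0 h3) (by omega)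
  · exact absurd (Nat.le_of_dvd (by omega) h3) (by omega)


lemma key_mod2 {p d a : ℕ} (hp : p.Prime) (hd0 : 0 < d) (hdp : d < p) (hap : a < p)
    (had : a * d ≤ p) {β M k : ℕ}
    (hM : M + d * β + 1 = p * (p - a * d)) (h : (d * k + M) % p = p - 1)
    (h' : (d * k + M) / p % p = p - 1) (hβ : β < p) :
    β + p * a ≤ k := by
  by_contra hlt
  push Not at hlt
  have hpos := hp.pos
  have h1 : p ^ 2 ∣ d * k + M + 1 := by
    have h2 := Nat.div_add_mod (d * k + M) p
    have h3 := Nat.div_add_mod ((d * k + M) / p) p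
    rw [h] at h2
    rw [h'] at h3
    set u := (d * k + M) / p with hu
    refine ⟨u / p + 1, ?_⟩
    obtain ⟨r, hr⟩ : ∃ r, p = r + 1 := ⟨p - 1, by omega⟩
    have e1 : p - 1 = r := by omega
    rw [e1] at h2 h3
    obtain ⟨v, hv⟩ : ∃ v, v = u / p := ⟨_, rfl⟩
    rw [← hv] at h3 ⊢
    rw [← h2, ← h3, hr]
    ring
  have h2 : p ^ 2 ∣ d * (β + p * a - k) := by
    have h3 : ((p ^ 2 : ℕ) : ℤ) ∣ ((d * (β + p * a - k) : ℕ) : ℤ) := by
      have h4 : ((d * (β + p * a - k) : ℕ) : ℤ) = (p ^ 2 : ℕ) - ((d * k + M + 1 : ℕ) : ℤ) := by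
        have h5 : ((M + d * β + 1 : ℕ) : ℤ) = ((p * (p - a * d) : ℕ) : ℤ) := by rw [hM]
        push_cast [Nat.cast_sub hlt.le, Nat.cast_sub had] at h5 ⊢
        linear_combination h5
      rw [h4]
      exact dvd_sub dvd_rfl (by exact_mod_cast h1)
    exact_mod_cast h3
  have hcop : Nat.Coprime (p ^ 2) d :=
    Nat.Coprime.pow_left 2 ((Nat.Prime.coprime_iff_not_dvd hp).mpr
      (fun h => absurd (Nat.le_of_dvd hd0 h) (by omega)))
  have h3 : p ^ 2 ∣ β + p * a - k := hcop.dvd_of_dvd_mul_left h2
  have h4 := Nat.le_of_dvd (by omega) h3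
  have h5 : β + p * a < p ^ 2 := by nlinarith
  omega

/-- the first application of the extraction gives zero -/
lemma U_pow_zero {p d a : ℕ} (hp : p.Prime) (φ : Λ ≃+* Λ) (hd0 : 0 < d) (hdp : d < p)
    (β M : Fin n → ℕ) (hM : ∀ i, M i + d * β i + 1 = p * (p - a * d)) (hβ : ∀ i, β i < p)
    (hsum : ∑ i, β i = 2 * p - 1) :
    U p φ ((∑ i, (X i : MvPolynomial (Fin n) Λ) ^ d) ^ (p - 1) * ∏ i, X i ^ M i) = 0 := by
  rw [expand_pow, map_sum]
  apply Finset.sum_eq_zero
  intro k hk
  rw [U_monomial, if_neg]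
  intro h
  have h1 : ∀ i, β i ≤ k i := fun i => key_mod hp hd0 hdp (hM i) (h i) (hβ i)
  have h2 : ∑ i, β i ≤ ∑ i, k i := Finset.sum_le_sum (fun i _ => h1 i)
  rw [Finset.mem_piAntidiag] at hk
  rw [hk.1, hsum] at h2
  have := hp.two_le
  omega

/-- the second application gives a multinomial coefficient -/
lemma UU_pow {p d a : ℕ} (hp : p.Prime) (φ : Λ ≃+* Λ) (hd0 : 0 < d) (hdp : d < p)
    (hpa : p = a * n + 2) (had : a * d ≤ p) (hap : a < p)
    (β M : Fin n → ℕ) (hM : ∀ i, M i + d * β i + 1 = p * (p - a * d)) (hβ : ∀ i, β i < p)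
    (hsum : ∑ i, β i = 2 * p - 1) :
    U p φ (U p φ ((∑ i, (X i : MvPolynomial (Fin n) Λ) ^ d) ^ (p ^ 2 - 1) * ∏ i, X i ^ M i)) =
      ((Nat.multinomial Finset.univ (fun i => β i + p * a) : ℕ) : MvPolynomial (Fin n) Λ) := by
  have hpos := hp.pos
  have hsum2 : ∑ i, (β i + p * a) = p ^ 2 - 1 := by
    rw [Finset.sum_add_distrib, hsum, Finset.sum_const, Finset.card_univ, Fintype.card_fin,
      smul_eq_mul]
    have h1 : n * (p * a) + 2 * p = p ^ 2 := by
      have h2 : p ^ 2 = p * (a * n + 2) := by rw [← hpa]; ring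
      rw [h2]
      ring
    omega
  rw [expand_pow, map_sum, map_sum]
  rw [Finset.sum_eq_single (fun i => β i + p * a)]
  · have hex : ∀ i, ex d M (fun i => β i + p * a) i = p ^ 2 - 1 := by
      intro i
      rw [ex_apply]
      have h1 := hM i
      have h2 : p * (p - a * d) + d * (p * a) = p ^ 2 := by
        obtain ⟨r, hr⟩ := Nat.exists_eq_add_of_le had
        have e1 : p - a * d = r := by omega
        rw [e1]
        have : p ^ 2 = p * (a * d + r) := by rw [← hr]; ring
        rw [this]
        ring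
      have h3 : d * (β i + p * a) = d * β i + d * (p * a) := by ring
      omega
    have hm1 : (p ^ 2 - 1) % p = p - 1 := by
      obtain ⟨r, hr⟩ : ∃ r, p = r + 1 := ⟨p - 1, by omega⟩
      have e1 : p ^ 2 - 1 = p * r + r := by
        rw [hr]
        have : (r + 1) ^ 2 = (r + 1) * r + r + 1 := by ring
        omega
      rw [e1, Nat.mul_add_mod, Nat.mod_eq_of_lt (by omega)]
      omega
    have hm2 : (p ^ 2 - 1) / p = p - 1 := by
      obtain ⟨r, hr⟩ : ∃ r, p = r + 1 := ⟨p - 1, by omega⟩
      have e1 : p ^ 2 - 1 = p * r + r := by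
        rw [hr]
        have : (r + 1) ^ 2 = (r + 1) * r + r + 1 := by ring
        omega
      rw [e1, Nat.mul_add_div hpos, Nat.div_eq_of_lt (by omega)]
      omega
    rw [U_monomial, if_pos (fun i => by rw [hex, hm1]), U_monomial, if_pos]
    · have h0 : ((ex d M (fun i => β i + p * a)).mapRange (fun m => m / p)
          (Nat.zero_div p)).mapRange (fun m => m / p) (Nat.zero_div p) = 0 := by
        ext i
        rw [Finsupp.mapRange_apply, Finsupp.mapRange_apply, hex, hm2, Finsupp.zero_apply]
        exact Nat.div_eq_of_lt (by omega)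
      rw [h0, map_natCast, map_natCast, ← C_apply, map_natCast]
    · intro i
      rw [Finsupp.mapRange_apply, hex, hm2]
      exact Nat.mod_eq_of_lt (by omega)
  · intro k hk hne
    rw [U_monomial]
    split_ifs with h
    · rw [U_monomial, if_neg]
      intro h'
      apply hne
      have h1 : ∀ i, β i + p * a ≤ k i := fun i =>
        key_mod2 hp hd0 hdp hap had (hM i) (h i) (by
          have := h' i
          rwa [Finsupp.mapRange_apply, ex_apply] at this) (hβ i)
      rw [Finset.mem_piAntidiag] at hk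
      have h2 : ∑ i, (β i + p * a) = ∑ i, k i := by rw [hsum2, hk.1]
      have h3 := (Finset.sum_eq_sum_iff_of_le (fun i _ => h1 i)).mp h2
      funext i
      exact (h3 i (Finset.mem_univ i)).symm
    · rw [map_zero]
  · intro h
    exfalso
    apply h
    rw [Finset.mem_piAntidiag]
    exact ⟨hsum2, fun i _ => Finset.mem_univ i⟩

/-- the multinomial coefficient is divisible by `p` exactly once -/
lemma multinomial_val {p a : ℕ} [hp : Fact p.Prime] (hpa : p = a * n + 2) (hap : a < p)
    (β : Fin n → ℕ) (hβ : ∀ i, β i < p) (hsum : ∑ i, β i = 2 * p - 1) :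
    ∃ N, Nat.multinomial Finset.univ (fun i => β i + p * a) = p * N ∧ ¬ p ∣ N := by
  have hpos := hp.out.pos
  have hsum2 : ∑ i, (β i + p * a) = p * (p - 1) + (p - 1) := by
    rw [Finset.sum_add_distrib, hsum, Finset.sum_const, Finset.card_univ, Fintype.card_fin,
      smul_eq_mul]
    obtain ⟨r, hr⟩ : ∃ r, p = r + 1 := ⟨p - 1, by omega⟩
    have h1 : n * (p * a) + 2 * p = p * p := by
      have h2 : p * p = p * (a * n + 2) := by rw [← hpa]
      rw [h2]
      ring
    have h3 : p * (p - 1) + p = p * p := by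
      rw [hr, Nat.add_sub_cancel]; ring
    omega
  have hval : padicValNat p (Nat.multinomial Finset.univ (fun i => β i + p * a)) = 1 := by
    have h1 := Nat.multinomial_spec Finset.univ (fun i => β i + p * a)
    have h2 := congrArg (padicValNat p) h1
    rw [padicValNat.mul (Finset.prod_ne_zero_iff.mpr (fun i _ => Nat.factorial_ne_zero _))
      (Nat.multinomial_pos _ _).ne', hsum2] at h2
    rw [padicValNat_factorial_mul_add _ (by omega), padicValNat_factorial_mul] at h2
    have h3 : ∀ m, m < p → padicValNat p (Nat.factorial m) = 0 := fun m hm =>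
      padicValNat.eq_zero_of_not_dvd (fun h => by
        rw [hp.out.dvd_factorial] at h
        omega)
    rw [h3 _ (by omega)] at h2
    have h4 : padicValNat p (∏ i, Nat.factorial (β i + p * a)) = n * a := by
      rw [← Finset.prod_congr rfl (fun i _ => rfl)]
      have h5 : ∀ s : Finset (Fin n), padicValNat p (∏ i ∈ s, Nat.factorial (β i + p * a)) =
          s.card * a := by
        intro s
        induction s using Finset.induction_on with
        | empty => simp
        | insert i s hi ih =>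
          rw [Finset.prod_insert hi, padicValNat.mul (Nat.factorial_ne_zero _)
            (Finset.prod_ne_zero_iff.mpr (fun i _ => Nat.factorial_ne_zero _)), ih,
            add_comm (β i), padicValNat_factorial_mul_add _ (hβ i), padicValNat_factorial_mul,
            h3 _ hap, Finset.card_insert_of_notMem hi]
          ring
      rw [h5, Finset.card_univ, Fintype.card_fin]
    rw [h4] at h2
    have h6 : n * a = a * n := mul_comm _ _
    omega
  obtain ⟨N, hN⟩ : p ∣ Nat.multinomial Finset.univ (fun i => β i + p * a) :=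
    dvd_of_one_le_padicValNat (by rw [hval])
  refine ⟨N, hN, ?_⟩
  intro h
  have hne : Nat.multinomial Finset.univ (fun i => β i + p * a) ≠ 0 :=
    (Nat.multinomial_pos _ _).ne'
  have h1 : p ^ 2 ∣ Nat.multinomial Finset.univ (fun i => β i + p * a) := by
    rw [hN, pow_two]
    exact Nat.mul_dvd_mul_left p h
  rw [padicValNat_dvd_iff_le hne, hval] at h1
  omega

end Pool.Agent.R407.QF
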